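import Pool.Agent.H55.QT.Targets
import Pool.Agent.H55.QP.FINP
import Pool.Agent.H55.QO.FINQ
import Pool.Agent.H91.QO.FINO

/-! # Quantum relaxations from pools, wide clauses: choice of the parameters (helper55, after
helper91) -/

set_option autoImplicit false

namespace Pool.Agent.H55.QT

open Finset Matrix
open Pool.Agent.H1.LP (Clause viol)
open Pool.Agent.H91.SV (kc kc_nonneg)
open Pool.Agent.H91.QO (NO NO_cube)
open Pool.Agent.H55.QP (S_COREP QPool CertifiedBy)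
open Pool.Agent.H43.QO (Good2 T_GOO2)
open Pool.Agent.H55.QO (rp_le' three_le)

/-- the error is small: `p ^ N ≤ 2 ^ (n / (L + 1))` -/
theorem err_smallT (K L n N p : ℕ) (γ τ : ℝ) (hL : 64 ≤ τ * ((L : ℝ) + 1))
    (hBn : N * ((K + 1) * (L + 1)) ≤ n) (hp2 : p ≤ 2 ^ (K + 1)) (hγ : γ ≤ τ / 4)
    (hn : 8 ≤ τ * n) :
    4 * (p : ℝ) ^ N * (2 : ℝ) ^ (-(τ * n)) ≤ (2 : ℝ) ^ (-(γ * n)) := by
  have hnR : (0 : ℝ) ≤ n := Nat.cast_nonneg n
  have hL1 : (0 : ℝ) < (L : ℝ) + 1 := by positivity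
  have h1 : (p : ℝ) ^ N ≤ (2 : ℝ) ^ (τ * n / 4) := by
    have h2 : (p : ℝ) ≤ (2 : ℝ) ^ (K + 1) := by exact_mod_cast hp2
    have h3 : (p : ℝ) ^ N ≤ ((2 : ℝ) ^ (K + 1)) ^ N := pow_le_pow_left₀ (Nat.cast_nonneg _) h2 N
    refine h3.trans ?_
    rw [← pow_mul, ← Real.rpow_natCast]
    apply rp_le'
    have h4 : (((K + 1) * N : ℕ) : ℝ) * ((L : ℝ) + 1) ≤ n := by
      have : ((K + 1) * N) * (L + 1) ≤ n := by
        refine le_trans (le_of_eq ?_) hBn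
        ring
      exact_mod_cast this
    have h5 : (0 : ℝ) ≤ (((K + 1) * N : ℕ) : ℝ) := Nat.cast_nonneg _
    have hτ : 0 < τ := by
      by_contra hcon
      push Not at hcon
      have : τ * ((L : ℝ) + 1) ≤ 0 := mul_nonpos_of_nonpos_of_nonneg hcon hL1.le
      linarith
    have h6 : (((K + 1) * N : ℕ) : ℝ) * 64 ≤ τ * n := by
      calc (((K + 1) * N : ℕ) : ℝ) * 64 ≤ (((K + 1) * N : ℕ) : ℝ) * (τ * ((L : ℝ) + 1)) :=
            mul_le_mul_of_nonneg_left hL h5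
        _ = τ * ((((K + 1) * N : ℕ) : ℝ) * ((L : ℝ) + 1)) := by ring
        _ ≤ τ * n := mul_le_mul_of_nonneg_left h4 hτ.le
    linarith
  have h6 : (4 : ℝ) = (2 : ℝ) ^ (2 : ℝ) := by norm_num
  calc 4 * (p : ℝ) ^ N * (2 : ℝ) ^ (-(τ * n)) ≤
        4 * (2 : ℝ) ^ (τ * n / 4) * (2 : ℝ) ^ (-(τ * n)) := by gcongr
    _ = (2 : ℝ) ^ ((2 : ℝ) + τ * n / 4 + -(τ * n)) := by
        rw [Real.rpow_add (by norm_num), Real.rpow_add (by norm_num), ← h6]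
    _ ≤ (2 : ℝ) ^ (-(γ * n)) := by
        apply rp_le'
        have := mul_le_mul_of_nonneg_right hγ hnR
        linarith

theorem pf_FINT (hC : S_COREP) (hG : T_GOO2) (hP : S_PARML) : StatementTW := by
  classical
  intro C ε τ hε hτ
  obtain ⟨ε₂, hε₂⟩ : ∃ ε₂ : ℝ, ε₂ = min (ε / 2) τ := ⟨_, rfl⟩
  have hε₂0 : 0 < ε₂ := by
    rw [hε₂]
    exact lt_min (by linarith) hτ
  have hε₂a : ε₂ ≤ ε / 2 := by
    rw [hε₂]
    exact min_le_left _ _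
  have hε₂b : ε₂ ≤ τ := by
    rw [hε₂]
    exact min_le_right _ _
  obtain ⟨E, hE, hEε, hpar⟩ := hP (C + 1) ε₂ hε₂0
  obtain ⟨K, w, ρ, k, p, hp, hEK, hw, hρ, hk, hpK, hpK2, hgood⟩ := hG E hE
  obtain ⟨L, Kc, γ, e0, hL, hL64, he0, he1, hpe, hγ, n₀, hn⟩ := hpar K w ρ k p hEK hw hρ hk hpK hpK2
  obtain ⟨N1, hN1⟩ := exists_nat_ge (4 / ε)
  obtain ⟨N2, hN2⟩ := exists_nat_ge (8 / τ)
  refine ⟨(K + 1) * (L + 1) * k, Kc, min γ (τ / 4), lt_min hγ (by linarith), n₀ + N1 + N2 + 8,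
    fun n hn0 => ?_⟩
  obtain ⟨u, hku, hwu, hNO, h4, hfin⟩ := hn n (by omega)
  have hnR : (0 : ℝ) ≤ n := Nat.cast_nonneg n
  have hn8 : (8 : ℝ) ≤ n := by exact_mod_cast (by omega : 8 ≤ n)
  have hu1 : 1 ≤ u := hk.trans hku
  have hR : 1 ≤ ρ * u := Nat.one_le_iff_ne_zero.2 (by positivity)
  have hth0 : (0 : ℝ) ≤ ((4 : ℝ) ^ (w * u))⁻¹ := by positivity
  have hth1 : ((4 : ℝ) ^ (w * u))⁻¹ ≤ 1 := inv_le_one_of_one_le₀ (one_le_pow₀ (by norm_num))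
  obtain ⟨Y, m, phi, hY, hm, hmain⟩ := hC E K k p (w * u) (ρ * u) L n (w * u - w * u / E)
    (((4 : ℝ) ^ (w * u))⁻¹) e0 hE hR hpK2 (hgood u hku) hth0 hth1 hwu he0 he1 hpe
  refine ⟨Y, m, phi, hY, ?_, ?_⟩
  · intro a
    obtain ⟨h1, h2, h3, h5⟩ := hm a
    refine ⟨h1, h2.trans hNO, h3, fun x => le_trans ?_ (h5 x)⟩
    apply mul_le_mul_of_nonneg_right _ (by positivity)
    linarith
  · intro M P hPW
    obtain ⟨de, hde⟩ : ∃ de : ℝ, de = (2 : ℝ) ^ (-(min γ (τ / 4) * n)) := ⟨_, rfl⟩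
    rw [← hde]
    have hde0 : 0 < de := by
      rw [hde]
      positivity
    have hdeγ : (2 : ℝ) ^ (-(γ * n)) ≤ de := by
      rw [hde]
      apply rp_le'
      have := mul_le_mul_of_nonneg_right (min_le_left γ (τ / 4)) hnR
      linarith
    obtain ⟨A, hA⟩ : ∃ A, A = univ.filter (fun a => CertifiedBy P (phi a) de
      ((2 : ℝ) ^ (-(τ * n))) ((2 : ℝ) ^ ((1 - ε) * n))) := ⟨_, rfl⟩
    rw [← hA]
    rcases Nat.eq_zero_or_pos A.card with hA0 | hA0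
    · rw [hA0]
      push_cast
      positivity
    have hYR : (0 : ℝ) < Y := by exact_mod_cast hY
    have hAR : (0 : ℝ) < A.card := by exact_mod_cast hA0
    have h3 : 2 ≤ ε / 2 * n := by
      have h5 : (N1 : ℝ) ≤ n := by exact_mod_cast (by omega : N1 ≤ n)
      have h6 : 4 / ε ≤ n := hN1.trans h5
      rw [div_le_iff₀ hε] at h6
      linarith
    have h8τ : 8 ≤ τ * n := by
      have h5 : (N2 : ℝ) ≤ n := by exact_mod_cast (by omega : N2 ≤ n)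
      have h6 : 8 / τ ≤ n := hN2.trans h5
      rw [div_le_iff₀ hτ] at h6
      linarith
    have hL64' : 64 ≤ τ * ((L : ℝ) + 1) :=
      hL64.trans (mul_le_mul_of_nonneg_right hε₂b (by positivity))
    have two_le : ∀ {a b : ℝ}, a + 2 ≤ b → (2 : ℝ) ^ a ≤ (2 : ℝ) ^ b / 2 := by
      intro a b hab
      have h5 := three_le hab
      have h6 : (0 : ℝ) < (2 : ℝ) ^ b := by positivity
      linarith
    have hthde : ((4 : ℝ) ^ (w * u))⁻¹ ≤ de / 4 := by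
      have h5 : ((4 : ℝ) ^ (w * u))⁻¹ ≤ (2 : ℝ) ^ (-(γ * n)) / 4 := by
        refine le_trans ?_ h4
        have hR1 : (1 : ℝ) ≤ ((ρ * u : ℕ) : ℝ) := by exact_mod_cast hR
        exact le_mul_of_one_le_right hth0 hR1
      linarith
    have hθ0 : (0 : ℝ) < (A.card : ℝ) / (Y * (2 : ℝ) ^ ((C + 1) * n)) := by positivity
    have e1 : 2 * ((2 : ℝ) ^ ((C + 1) * n) / 2) = (2 : ℝ) ^ ((C + 1) * n) := by ring
    have e2 : 2 * ((2 : ℝ) ^ ((1 - ε₂) * n) / 2) = (2 : ℝ) ^ ((1 - ε₂) * n) := by ring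
    have hθ : (A.card : ℝ) / (Y * (2 : ℝ) ^ ((C + 1) * n)) * Y *
        (2 * ((2 : ℝ) ^ ((C + 1) * n) / 2)) ≤ A.card := by
      refine le_of_eq ?_
      field_simp
    have key := hmain M P A de ((2 : ℝ) ^ (-(τ * n))) ((2 : ℝ) ^ ((1 - ε₂) * n) / 2)
      ((2 : ℝ) ^ ((C + 1) * n) / 2) ((A.card : ℝ) / (Y * (2 : ℝ) ^ ((C + 1) * n))) hde0
      (by
        rw [hde]
        exact err_smallT K L n (w * u) p _ τ hL64' hwu hpK2 (min_le_right _ _) h8τ)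
      hthde (by positivity) hθ0
      (fun a ha => by
        rw [hA] at ha
        refine (mem_filter.1 ha).2.mono (two_le ?_)
        nlinarith)
      (hPW.trans (two_le (by nlinarith))) hθ hA0
    rw [e1, e2] at key
    have hfin' := hfin (A.card : ℝ) (Y : ℝ) hAR hYR (le_trans
      (pow_le_pow_left₀ (by positivity) hdeγ 2) (key.trans ?_))
    · refine hfin'.trans (mul_le_mul_of_nonneg_right hdeγ hYR.le)
    have hkc := kc_nonneg p (p ^ L) (w * u) (w * u - w * u / E) e0 ((2 : ℝ) ^ ((C + 1) * n))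
      ((A.card : ℝ) / (Y * (2 : ℝ) ^ ((C + 1) * n))) he0 (by positivity) hθ0
    have hcube := NO_cube (ρ * u) K L k hR hL (hE.trans hEK) hk
    obtain ⟨kb, hkb⟩ : ∃ kb, kb = kc p (p ^ L) (w * u) (w * u - w * u / E) e0
      ((2 : ℝ) ^ ((C + 1) * n)) ((A.card : ℝ) / (Y * (2 : ℝ) ^ ((C + 1) * n))) := ⟨_, rfl⟩
    rw [← hkb] at hkc ⊢
    have hS : (0 : ℝ) ≤ (2 : ℝ) ^ ((1 - ε₂) * n) + 1 := by positivity
    calc 2 ^ 14 * ((p : ℝ) ^ (w * u)) ^ 2 * (((ρ * u : ℕ) : ℝ) * kb) *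
          ((2 : ℝ) ^ ((1 - ε₂) * n) + 1)
        = (2 ^ 14 * ((ρ * u : ℕ) : ℝ)) * (((p : ℝ) ^ (w * u)) ^ 2 * kb *
          ((2 : ℝ) ^ ((1 - ε₂) * n) + 1)) := by ring
      _ ≤ (36 * ((NO (ρ * u) K L k : ℝ) + 1) ^ 3) * (((p : ℝ) ^ (w * u)) ^ 2 * kb *
          ((2 : ℝ) ^ ((1 - ε₂) * n) + 1)) := by gcongr
      _ = _ := by ring

end Pool.Agent.H55.QT
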