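import Pool.Agent.H55.QT.Targets
import Pool.Agent.H55.QP.PAD

/-!
# MP_0f8dca_lc, memories and energies from pools, errors: padding of the clauses (after helper58,
helper36, helper78)
-/

set_option autoImplicit false

namespace Pool.Agent.H55.QT

open Finset Matrix
open Pool.Agent.H1.LP (Clause viol)
open Pool.Agent.H78.KX (ext ext_sat ext_card ext_card' sum_pad viol_pad pad pe)
open Pool.Agent.H36.UV (padu_exp)
open Pool.Agent.H55.QP (QPool CertifiedBy restP certifiedBy_pad)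

theorem pf_PADT : S_PAD := by
  classical
  intro w k ε c c' C C' τ hwk hcc hCC hτ hH
  obtain ⟨r, rfl⟩ := Nat.exists_eq_add_of_le hwk
  obtain ⟨K, γ, hγ, n₀, hn₀⟩ := hH
  obtain ⟨N1, hN1⟩ := exists_nat_ge (c * r / (c - c'))
  obtain ⟨N3, hN3⟩ := exists_nat_ge (C * r / (C - C'))
  obtain ⟨N2, hN2⟩ := exists_nat_ge ((γ + 1) * r / (γ / 2))
  refine ⟨K * 2 ^ r, γ / 2, by positivity, n₀ + r + N1 + N2 + N3, ?_⟩
  intro n hn
  obtain ⟨n1, rfl⟩ : ∃ n1, n = n1 + r := ⟨n - r, by omega⟩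
  obtain ⟨Y, m, phi, hY, hphi, hmain⟩ := hn₀ n1 (by omega)
  have hA := padu_exp c c' r n1 N1 (sub_pos.2 hcc) hN1 (by omega)
  have hA' := padu_exp C C' r n1 N3 (sub_pos.2 hCC) hN3 (by omega)
  have hB : (γ + 1) * r ≤ ((n1 + r : ℕ) : ℝ) * (γ / 2) := by
    have h1 : (N2 : ℝ) ≤ ((n1 + r : ℕ) : ℝ) := by exact_mod_cast (by omega : N2 ≤ n1 + r)
    exact (div_le_iff₀ (by positivity)).1 (hN2.trans h1)
  have hD : (2 : ℝ) ^ (-(γ * n1)) ≤ (2 : ℝ) ^ (-(γ / 2 * ((n1 + r : ℕ) : ℝ))) := by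
    refine Real.rpow_le_rpow_of_exponent_le (by norm_num) ?_
    have h3 : ((n1 + r : ℕ) : ℝ) = n1 + r := by push_cast; ring
    have h4 : (0 : ℝ) ≤ r := Nat.cast_nonneg r
    rw [h3] at hB ⊢
    nlinarith
  have hE : (2 : ℝ) ^ (-(τ * ((n1 + r : ℕ) : ℝ))) ≤ (2 : ℝ) ^ (-(τ * (n1 : ℝ))) := by
    refine Real.rpow_le_rpow_of_exponent_le (by norm_num) ?_
    have h3 : ((n1 + r : ℕ) : ℝ) = n1 + r := by push_cast; ring
    rw [h3]
    have : (0 : ℝ) ≤ τ * r := mul_nonneg hτ (Nat.cast_nonneg r)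
    linarith
  refine ⟨Y, fun a => m a * 2 ^ r, fun a => pad r (phi a), hY, ?_, ?_⟩
  · intro a
    obtain ⟨h1, h2, h3, h4⟩ := hphi a
    refine ⟨Nat.mul_pos h1 (by positivity), ?_, ?_, ?_⟩
    · calc m a * 2 ^ r ≤ K * n1 * 2 ^ r := Nat.mul_le_mul_right _ h2
        _ = K * 2 ^ r * n1 := by ring
        _ ≤ K * 2 ^ r * (n1 + r) := Nat.mul_le_mul_left _ (by omega)
    · intro i
      unfold pad
      exact ⟨by rw [ext_card, (h3 _).1], by rw [ext_card', (h3 _).2]⟩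
    · intro x
      rw [viol_pad]
      refine le_trans (le_of_eq ?_) (h4 _)
      have h5 : (((m a * 2 ^ r : ℕ) : ℝ)) = m a * 2 ^ r := by push_cast; ring
      rw [h5, pow_add]
      field_simp
  · intro M P hP
    have h1 := hmain M (fun j => restP (P j)) ?_
    · refine le_trans (Nat.cast_le.2 (Finset.card_le_card fun a ha => ?_))
        (h1.trans (mul_le_mul_of_nonneg_right hD (by positivity)))
      rw [mem_filter] at ha ⊢
      exact ⟨ha.1, certifiedBy_pad P (phi a) _ _ _ _ _ _ hD hE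
        (Real.rpow_le_rpow_of_exponent_le (by norm_num) hA) ha.2⟩
    · refine le_trans (le_of_eq ?_)
        (hP.trans (Real.rpow_le_rpow_of_exponent_le (by norm_num) hA'))
      rfl

end Pool.Agent.H55.QT
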