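import Pool.Agent.H55.QP.Stmt

/-!
# Quantum relaxations of k-SAT, the memory and the energies chosen after the formula, errors: the
statement (MP_0f8dca_lc, helper55)
-/

set_option autoImplicit false

namespace Pool.Agent.H55.QT

open Pool.Agent.H1.LP (Clause viol)
open Pool.Agent.H55.QP (QPool CertifiedBy)
open Filter Topology

open Classical in
/-- Quantum relaxations of size `2 ^ (c n)`, whose memories and energies are chosen after the
formula from pools of total size `2 ^ (C n)`, do not refute `k`-CNFs with `O(n)` clauses and with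
the gap `(1 - ε) / 2 ^ k`, even if the expectations agree with the energies only up to the error
`2 ^ (- τ n)`.  There are `K` and `γ > 0` such that for all large `n` there is a finite list of
CNFs with `n` variables, at most `K n` clauses, all of width exactly `k`, every assignment
violating at least `(1 - ε) m / 2 ^ k` of the `m` clauses, with the property: for all pools, of
total size at most `2 ^ (C n)`, at most a fraction `2 ^ (- γ n)` of the formulas of the list is
certified with margin `2 ^ (- γ n)`, up to the error `2 ^ (- τ n)`, by memories and energy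
functions from the pools of total size at most `2 ^ (c n)`. -/
def HardT (k : ℕ) (ε c C τ : ℝ) : Prop :=
  ∃ (K : ℕ) (γ : ℝ), 0 < γ ∧ ∃ n₀ : ℕ, ∀ n : ℕ, n₀ ≤ n →
    ∃ (Y : ℕ) (m : Fin Y → ℕ) (phi : (a : Fin Y) → Fin (m a) → Clause n), 0 < Y ∧
      (∀ a, 1 ≤ m a ∧ m a ≤ K * n ∧
        (∀ i, (phi a i).card = k ∧ ((phi a i).image Prod.fst).card = k) ∧
        ∀ x, (1 - ε) * ((m a : ℝ) / 2 ^ k) ≤ (viol (phi a) x : ℝ)) ∧
      ∀ (M : ℕ) (P : Fin M → QPool n),
        ∑ j, (P j).sizeOf Finset.univ Finset.univ ≤ (2 : ℝ) ^ (C * n) →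
        ((Finset.univ.filter (fun a => CertifiedBy P (phi a) ((2 : ℝ) ^ (-(γ * n)))
          ((2 : ℝ) ^ (-(τ * n))) ((2 : ℝ) ^ (c * n)))).card : ℝ) ≤ (2 : ℝ) ^ (-(γ * n)) * Y

/-- Quantum relaxations of k-SAT: for every gap `ε > 0` there are exponents `c k`, positive for
all `k ≥ 3` and tending to `1`, `C k ≥ c k`, tending to infinity, and `τ k > 0`, tending to `0`,
such that memories of total dimension `2 ^ (c k n)` (`a` bits and `b` qubits with
`a + b ≤ c k n`) and energy functions, all chosen after the formula from pools of total size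
`2 ^ (C k n)`, do not refute `k`-CNFs with `n` variables and `O(n)` clauses, in which every
assignment violates a fraction at least `(1 - ε) / 2 ^ k` of the clauses, even if errors
`2 ^ (- τ k n)` are allowed. -/
def StatementT : Prop :=
  ∀ ε : ℝ, 0 < ε → ∃ c C τ : ℕ → ℝ, (∀ k, 3 ≤ k → 0 < c k ∧ c k ≤ C k ∧ 0 < τ k) ∧
    Tendsto c atTop (𝓝 1) ∧ Tendsto C atTop atTop ∧ Tendsto τ atTop (𝓝 0) ∧
    ∀ k, 3 ≤ k → HardT k ε (c k) (C k) (τ k)

end Pool.Agent.H55.QT
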