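import Pool.Agent.H55.QP.Targets
import Pool.Agent.H55.QT.Stmt

/-!
# Quantum relaxations of k-SAT, memory and energies chosen after the formula, errors: targets
(MP_0f8dca_lc, helper55)
-/

set_option autoImplicit false

namespace Pool.Agent.H55.QT

open Matrix Finset
open Pool.Agent.H91.QO (NO)
open Pool.Agent.H91.SV (kc)

/-- PARML: `S_PARMO` with long blocks -/
def S_PARML : Prop :=
  ∀ C ε : ℝ, 0 < ε → ∃ E : ℕ, 2 ≤ E ∧ 1 / (E : ℝ) ≤ ε ∧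
    ∀ K w ρ k p : ℕ, E ≤ K → 1 ≤ w → 1 ≤ ρ → 1 ≤ k → 2 ^ K < p → p ≤ 2 ^ (K + 1) →
    ∃ (L Kc : ℕ) (γ e0 : ℝ), 2 ≤ L ∧ 64 ≤ ε * ((L : ℝ) + 1) ∧ 0 < e0 ∧ e0 < 1 / 3 ∧
      (p : ℝ) ≤ e0 * ((p ^ L : ℕ) : ℝ) ∧ 0 < γ ∧
      ∃ n₀ : ℕ, ∀ n : ℕ, n₀ ≤ n → ∃ u : ℕ, k ≤ u ∧ (w * u) * ((K + 1) * (L + 1)) ≤ n ∧
        NO (ρ * u) K L k ≤ Kc * n ∧
        ((4 : ℝ) ^ (w * u))⁻¹ * ((ρ * u : ℕ) : ℝ) ≤ (2 : ℝ) ^ (-(γ * n)) / 4 ∧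
        ∀ N Y : ℝ, 0 < N → 0 < Y →
          ((2 : ℝ) ^ (-(γ * n))) ^ 2 ≤ 36 * ((p : ℝ) ^ (w * u)) ^ 2 *
            ((NO (ρ * u) K L k : ℝ) + 1) ^ 3 *
            kc p (p ^ L) (w * u) (w * u - w * u / E) e0 ((2 : ℝ) ^ (C * n))
              (N / (Y * (2 : ℝ) ^ (C * n))) * ((2 : ℝ) ^ ((1 - ε) * n) + 1) →
          N ≤ (2 : ℝ) ^ (-(γ * n)) * Y

/-- the large width case -/
def StatementTW : Prop := ∀ C ε τ : ℝ, 0 < ε → 0 < τ → ∃ k : ℕ, HardT k ε (1 - ε) C τ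

/-- width 3 -/
def S_FIN3 : Prop := ∀ ε : ℝ, 0 < ε → ∃ c : ℝ, 0 < c ∧ HardT 3 ε c c 1

/-- PAD: padding of the clauses -/
def S_PAD : Prop := ∀ (w k : ℕ) (ε c c' C C' τ : ℝ), w ≤ k → c' < c → C' < C → 0 ≤ τ →
  HardT w ε c C τ → HardT k ε c' C' τ

/-- LIM: `S_PAD → S_LIM` -/
def S_LIM : Prop := StatementTW → S_FIN3 → StatementT

end Pool.Agent.H55.QT
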