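import Pool.Agent.H7.QO.PARMO
import Pool.Agent.H55.QT.Targets

/-! # Choice of the parameters with long blocks (helper55, copy of PARMO of helper7) -/

set_option autoImplicit false

namespace Pool.Agent.H55.QT

open Finset Matrix Pool.Agent.H91.QO
open Pool.Agent.H91.SV (kc)
open Pool.Agent.H7.QO (prod_ge expoO poly_le)

theorem pf_PARML : S_PARML := by
  intro C ε hε
  obtain ⟨ε₁, hε₁0, hε₁ε, hε₁2⟩ : ∃ ε₁ : ℝ, 0 < ε₁ ∧ ε₁ ≤ ε ∧ ε₁ ≤ 1 / 2 :=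
    ⟨min ε (1 / 2), lt_min hε (by norm_num), min_le_left _ _, min_le_right _ _⟩
  obtain ⟨E0, hE0⟩ : ∃ E : ℕ, 16 / ε₁ ≤ E := exists_nat_ge _
  obtain ⟨E, hEdef⟩ : ∃ E : ℕ, E = E0 + 2 := ⟨_, rfl⟩
  have hE2 : 2 ≤ E := by omega
  have hE2r : (2 : ℝ) ≤ E := by exact_mod_cast hE2
  have hεE : 16 ≤ ε₁ * E := by
    have h1 : (E0 : ℝ) ≤ E := by
      have : E0 ≤ E := by omega
      exact_mod_cast this
    have h2 : 16 / ε₁ ≤ E := hE0.trans h1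
    rw [div_le_iff₀ hε₁0] at h2
    linarith
  -- the exponent `e0 = 2 ^ (-j)`
  obtain ⟨j, hj⟩ : ∃ j : ℕ, 16 * (|C| + 2) * (2 : ℝ)⁻¹ ^ j ≤ ε₁ := by
    have h1 : Filter.Tendsto (fun j : ℕ => 16 * (|C| + 2) * (2 : ℝ)⁻¹ ^ j) Filter.atTop
        (nhds (16 * (|C| + 2) * 0)) :=
      (tendsto_pow_atTop_nhds_zero_of_lt_one (by norm_num) (by norm_num)).const_mul _
    rw [mul_zero] at h1
    obtain ⟨j, hj⟩ := (h1.eventually_lt_const hε₁0).exists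
    exact ⟨j, hj.le⟩
  obtain ⟨e0, he0⟩ : ∃ e0 : ℝ, e0 = (2 : ℝ)⁻¹ ^ j := ⟨_, rfl⟩
  rw [← he0] at hj
  have he0p : 0 < e0 := by rw [he0]; positivity
  have he0s : e0 ≤ 1 / 64 := by nlinarith [abs_nonneg C]
  have he0j : e0 * 2 ^ j = 1 := by
    rw [he0, ← mul_pow]
    norm_num
  refine ⟨E, hE2, ?_, ?_⟩
  · rw [div_le_iff₀ (by linarith)]
    have : ε₁ * (E : ℝ) ≤ ε * E := mul_le_mul_of_nonneg_right hε₁ε (by linarith)
    linarith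
  intro K w ρ k p hEK hw hρ hk hKp hpK
  obtain ⟨L0, hL0⟩ : ∃ L : ℕ, 8 * (8 + (j : ℝ)) / ε₁ ≤ L := exists_nat_ge _
  obtain ⟨L, hLdef⟩ : ∃ L : ℕ, L = L0 + j + 2 := ⟨_, rfl⟩
  have hL2 : 2 ≤ L := by omega
  have hL : 8 * (8 + (j : ℝ)) ≤ ε₁ * ((L : ℝ) + 1) := by
    have h1 : (L0 : ℝ) ≤ (L : ℝ) + 1 := by
      have : L0 ≤ L + 1 := by omega
      exact_mod_cast this
    have h2 := hL0.trans h1
    rw [div_le_iff₀ hε₁0] at h2
    linarith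
  obtain ⟨b, hb⟩ : ∃ b : ℕ, b = (K + 1) * (L + 1) := ⟨_, rfl⟩
  have hb1 : 1 ≤ b := by
    rw [hb]; exact Nat.one_le_iff_ne_zero.2 (by positivity)
  have hbr : (b : ℝ) = (K + 1) * (L + 1) := by rw [hb]; push_cast; ring
  have hb1r : (1 : ℝ) ≤ b := by exact_mod_cast hb1
  obtain ⟨Kc, hKc⟩ : ∃ Kc : ℕ, Kc = ρ * 2 ^ (b * k) := ⟨_, rfl⟩
  obtain ⟨g, hg⟩ : ∃ g : ℝ, g = min (ε₁ / 64) (1 / (2 * b)) := ⟨_, rfl⟩
  have hg0 : 0 < g := by rw [hg]; exact lt_min (by positivity) (by positivity)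
  have hg1 : 64 * g ≤ ε₁ := by
    have : g ≤ ε₁ / 64 := by rw [hg]; exact min_le_left _ _
    linarith
  have hg2 : g * (2 * b) ≤ 1 := by
    have : g ≤ 1 / (2 * b) := by rw [hg]; exact min_le_right _ _
    rwa [le_div_iff₀ (by positivity)] at this
  have hp2 : 2 ≤ p := by
    have : 2 ^ 1 ≤ 2 ^ K := Nat.pow_le_pow_right (by norm_num) (by omega)
    omega
  have hpr : (1 : ℝ) ≤ p := by exact_mod_cast (show 1 ≤ p by omega)
  have hKpr : (2 : ℝ) ^ (K : ℝ) ≤ p := by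
    rw [Real.rpow_natCast]
    exact_mod_cast hKp.le
  have hpKr : (p : ℝ) ≤ (2 : ℝ) ^ ((K : ℝ) + 1) := by
    have : (2 : ℝ) ^ ((K : ℝ) + 1) = 2 ^ (K + 1) := by
      rw [← Real.rpow_natCast]
      push_cast
      rfl
    rw [this]
    exact_mod_cast hpK
  have hL64 : 64 ≤ ε * ((L : ℝ) + 1) := by
    have h1 : (0 : ℝ) ≤ j := Nat.cast_nonneg _
    have h2 : ε₁ * ((L : ℝ) + 1) ≤ ε * ((L : ℝ) + 1) :=
      mul_le_mul_of_nonneg_right hε₁ε (by positivity)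
    linarith
  refine ⟨L, Kc, g, e0, hL2, hL64, he0p, by linarith, ?_, hg0, ?_⟩
  · -- `p ≤ e0 * p ^ L`
    have h1 : (2 : ℝ) ^ j ≤ (p : ℝ) ^ (L - 1) := by
      calc (2 : ℝ) ^ j ≤ (2 : ℝ) ^ (L - 1) := pow_le_pow_right₀ (by norm_num) (by omega)
        _ ≤ (p : ℝ) ^ (L - 1) := pow_le_pow_left₀ (by norm_num) (by exact_mod_cast hp2) _
    have h2 : (p : ℝ) ^ L = p * (p : ℝ) ^ (L - 1) := by
      rw [← pow_succ', Nat.sub_add_cancel (by omega)]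
    push_cast
    rw [h2]
    calc (p : ℝ) = p * (e0 * 2 ^ j) := by rw [he0j, mul_one]
      _ ≤ p * (e0 * (p : ℝ) ^ (L - 1)) := by gcongr
      _ = e0 * (p * (p : ℝ) ^ (L - 1)) := by ring
  obtain ⟨n₁, hn₁⟩ := poly_le Kc (Nat.cast_nonneg _) 3 (ε₁ / 4) (by positivity)
  obtain ⟨n₂, hn₂⟩ := poly_le (4 * ρ * 2 ^ (2 * w)) (by positivity) 1 (1 / b) (by positivity)
  obtain ⟨n₃, hn₃⟩ : ∃ n : ℕ, (8 + j + w * b : ℝ) / (ε₁ / 4) ≤ n := exists_nat_ge _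
  refine ⟨n₁ + n₂ + n₃ + w * b * k + 1, fun n hn => ?_⟩
  obtain ⟨u, hu⟩ : ∃ u : ℕ, u = n / (w * b) := ⟨_, rfl⟩
  have hwb : 1 ≤ w * b := Nat.one_le_iff_ne_zero.2 (by positivity)
  have hku : k ≤ u := by
    rw [hu, Nat.le_div_iff_mul_le (by omega), mul_comm]
    omega
  have hun : w * u * b ≤ n := by
    rw [hu]
    calc w * (n / (w * b)) * b = n / (w * b) * (w * b) := by ring
      _ ≤ n := Nat.div_mul_le_self _ _
  have hun' : u ≤ n := by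
    rw [hu]
    exact Nat.div_le_self _ _
  have hnu : n < (w * u + w) * b := by
    have := Nat.lt_mul_div_succ n hwb
    rw [← hu] at this
    calc n < w * b * (u + 1) := this
      _ = (w * u + w) * b := by ring
  obtain ⟨B, hB⟩ : ∃ B : ℕ, B = w * u := ⟨_, rfl⟩
  rw [← hB] at hun hnu
  have hNO : NO (ρ * u) K L k ≤ Kc * n := by
    unfold NO
    rw [← hb, hKc]
    calc ρ * u * 2 ^ (b * k) = ρ * 2 ^ (b * k) * u := by ring
      _ ≤ ρ * 2 ^ (b * k) * n := Nat.mul_le_mul_left _ hun'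
  have hnr0 : (0 : ℝ) < n := by
    have : 0 < n := by omega
    exact_mod_cast this
  have hunr : (B : ℝ) * b ≤ n := by exact_mod_cast hun
  have hnur : (n : ℝ) ≤ (B + w) * b := by exact_mod_cast hnu.le
  refine ⟨u, hku, by rw [← hB, ← hb]; exact hun, hNO, ?_, ?_⟩
  · -- the failure probability
    rw [← hB]
    have h1 := hn₂ n (by omega)
    rw [pow_one] at h1
    have h2 : (1 / (b : ℝ)) * n + g * n ≤ 2 * B + 2 * w := by
      have h3 : g * n ≤ 1 / (2 * b) * n := by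
        apply mul_le_mul_of_nonneg_right _ hnr0.le
        rw [le_div_iff₀ (by positivity)]
        exact hg2
      have h4 : (1 / (b : ℝ)) * n ≤ B + w := by
        rw [div_mul_eq_mul_div, one_mul, div_le_iff₀ (by linarith)]
        exact hnur
      have h5 : 1 / (2 * (b : ℝ)) * n = 1 / 2 * ((1 / (b : ℝ)) * n) := by
        field_simp
      have h6 : (0 : ℝ) ≤ w := Nat.cast_nonneg _
      have h7 : (0 : ℝ) ≤ B := Nat.cast_nonneg _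
      rw [h5] at h3
      linarith
    have h3 : (2 : ℝ) ^ (2 * w) = (2 : ℝ) ^ (2 * (w : ℝ)) := by
      rw [← Real.rpow_natCast]
      push_cast
      rfl
    have h4 : (4 : ℝ) ^ B = (2 : ℝ) ^ (2 * (B : ℝ)) := by
      rw [← Real.rpow_natCast, show (4 : ℝ) = (2 : ℝ) ^ (2 : ℝ) by norm_num,
        ← Real.rpow_mul (by norm_num)]
    have h5 : (u : ℝ) ≤ n := by exact_mod_cast hun'
    have h6 : 4 * (ρ : ℝ) * u * 2 ^ (2 * w) * (2 : ℝ) ^ (g * n) ≤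
        (4 : ℝ) ^ B * (2 : ℝ) ^ (2 * w) := by
      calc 4 * (ρ : ℝ) * u * 2 ^ (2 * w) * (2 : ℝ) ^ (g * n)
          ≤ 4 * (ρ : ℝ) * n * 2 ^ (2 * w) * (2 : ℝ) ^ (g * n) := by gcongr
        _ = (4 * (ρ : ℝ) * 2 ^ (2 * w) * n) * (2 : ℝ) ^ (g * n) := by ring
        _ ≤ (2 : ℝ) ^ (1 / (b : ℝ) * n) * (2 : ℝ) ^ (g * n) := by
            apply mul_le_mul_of_nonneg_right _ (by positivity)
            linarith
        _ = (2 : ℝ) ^ (1 / (b : ℝ) * n + g * n) := by rw [← Real.rpow_add two_pos]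
        _ ≤ (2 : ℝ) ^ (2 * (B : ℝ) + 2 * w) := Real.rpow_le_rpow_of_exponent_le one_le_two h2
        _ = (4 : ℝ) ^ B * (2 : ℝ) ^ (2 * w) := by rw [h3, h4, ← Real.rpow_add two_pos]
    have h7 : 4 * (ρ : ℝ) * u * (2 : ℝ) ^ (g * n) ≤ (4 : ℝ) ^ B := by
      have h8 : (4 * (ρ : ℝ) * u * (2 : ℝ) ^ (g * n)) * (2 : ℝ) ^ (2 * w) ≤
          (4 : ℝ) ^ B * (2 : ℝ) ^ (2 * w) := by
        calc (4 * (ρ : ℝ) * u * (2 : ℝ) ^ (g * n)) * (2 : ℝ) ^ (2 * w) =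
              4 * (ρ : ℝ) * u * 2 ^ (2 * w) * (2 : ℝ) ^ (g * n) := by ring
          _ ≤ _ := h6
      exact le_of_mul_le_mul_right h8 (by positivity)
    have h9 : (2 : ℝ) ^ (-(g * n)) * (2 : ℝ) ^ (g * n) = 1 := by
      rw [← Real.rpow_add two_pos, neg_add_cancel, Real.rpow_zero]
    rw [inv_mul_le_iff₀ (by positivity)]
    push_cast
    calc (ρ : ℝ) * u = (2 : ℝ) ^ (-(g * n)) / 4 * (4 * (ρ : ℝ) * u * (2 : ℝ) ^ (g * n)) := by
          calc (ρ : ℝ) * u = ρ * u * ((2 : ℝ) ^ (-(g * n)) * (2 : ℝ) ^ (g * n)) := by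
                rw [h9, mul_one]
            _ = _ := by ring
      _ ≤ (2 : ℝ) ^ (-(g * n)) / 4 * (4 : ℝ) ^ B := by gcongr
      _ = (4 : ℝ) ^ B * ((2 : ℝ) ^ (-(g * n)) / 4) := by ring
  intro N Y hN hY h
  by_contra hNY
  rw [not_le] at hNY
  rw [← hB] at h
  obtain ⟨h1, hh1⟩ : ∃ h1 : ℝ, h1 = ((B - B / E : ℕ) : ℝ) + 1 := ⟨_, rfl⟩
  have hsub : ((B - B / E : ℕ) : ℝ) = B - ((B / E : ℕ) : ℝ) := Nat.cast_sub (Nat.div_le_self _ _)
  have hdiv : ((B / E : ℕ) : ℝ) ≤ B / E := Nat.cast_div_le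
  have hh1a : (B : ℝ) * (1 - 1 / E) ≤ h1 := by
    rw [hh1, hsub]
    have : (B : ℝ) * (1 - 1 / E) = B - B / E := by ring
    rw [this]
    linarith
  have hh1b : h1 ≤ B + 1 := by
    rw [hh1, hsub]
    have : (0 : ℝ) ≤ ((B / E : ℕ) : ℝ) := Nat.cast_nonneg _
    linarith
  have hh1c : 0 ≤ h1 := by rw [hh1]; positivity
  have hEKr : (E : ℝ) ≤ K := by exact_mod_cast hEK
  have hn3 : 8 + (j : ℝ) + w * ((K + 1) * (L + 1)) ≤ ε₁ / 4 * n := by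
    rw [← hbr]
    have h2 : (n₃ : ℝ) ≤ n := by
      have : n₃ ≤ n := by omega
      exact_mod_cast this
    have h3 := hn₃.trans h2
    rw [div_le_iff₀ (by positivity)] at h3
    linarith
  have hexp := expoO E K L B w n j e0 g ε₁ C h1 hεE hEKr hε₁0 hε₁2 hL (Nat.cast_nonneg _)
    (by rw [← hbr]; exact hunr) (by rw [← hbr]; exact hnur) (Nat.cast_nonneg _) he0p hj hg0 hg1
    hh1a hh1b hn3 hnr0
  obtain ⟨W, hW⟩ : ∃ W : ℝ, W = (2 : ℝ) ^ (C * n) := ⟨_, rfl⟩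
  obtain ⟨δ, hδ⟩ : ∃ δ : ℝ, δ = (2 : ℝ) ^ (-(g * n)) := ⟨_, rfl⟩
  have hW0 : 0 < W := by rw [hW]; positivity
  have hδ0 : 0 < δ := by rw [hδ]; positivity
  rw [← hW, ← hδ] at h
  rw [← hδ] at hNY
  unfold kc at h
  rw [← hh1] at h
  -- the factors
  have q1 : (36 : ℝ) ≤ (2 : ℝ) ^ (6 : ℝ) := by norm_num
  have q2 : ((p : ℝ) ^ B) ^ 2 ≤ (2 : ℝ) ^ (2 * (B : ℝ) * (K + 1)) := by
    calc ((p : ℝ) ^ B) ^ 2 = (p : ℝ) ^ (2 * (B : ℝ)) := by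
          rw [← pow_mul, ← Real.rpow_natCast]
          congr 1
          push_cast
          ring
      _ ≤ ((2 : ℝ) ^ ((K : ℝ) + 1)) ^ (2 * (B : ℝ)) :=
          Real.rpow_le_rpow (by linarith) hpKr (by positivity)
      _ = (2 : ℝ) ^ (2 * (B : ℝ) * (K + 1)) := by
          rw [← Real.rpow_mul (by norm_num)]
          congr 1
          ring
  have q3 : ((NO (ρ * u) K L k : ℝ) + 1) ^ 3 ≤ (2 : ℝ) ^ (ε₁ / 4 * n) := by
    refine le_trans ?_ (hn₁ n (by omega))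
    have : (NO (ρ * u) K L k : ℝ) ≤ Kc * n := by exact_mod_cast hNO
    apply pow_le_pow_left₀ (by positivity)
    linarith
  have q4 : (2 : ℝ) ^ (2 * B + 1) = (2 : ℝ) ^ (2 * (B : ℝ) + 1) := by
    rw [← Real.rpow_natCast]
    push_cast
    rfl
  have q5 : ((p : ℝ) + 1) ^ (2 * (B : ℝ) * e0) ≤ (2 : ℝ) ^ ((K + 2) * (2 * (B : ℝ) * e0)) := by
    have e9 : (2 : ℝ) ^ (((K : ℝ) + 2) * (2 * (B : ℝ) * e0)) =
        ((2 : ℝ) ^ ((K : ℝ) + 2)) ^ (2 * (B : ℝ) * e0) := Real.rpow_mul zero_le_two _ _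
    rw [e9]
    apply Real.rpow_le_rpow (by positivity) _ (by positivity)
    have h2 : (1 : ℝ) ≤ (2 : ℝ) ^ ((K : ℝ) + 1) := Real.one_le_rpow one_le_two (by positivity)
    have h3 : (2 : ℝ) ^ ((K : ℝ) + 2) = (2 : ℝ) ^ ((K : ℝ) + 1) * 2 := by
      rw [show (K : ℝ) + 2 = (K + 1) + 1 by ring, Real.rpow_add two_pos ((K : ℝ) + 1) 1,
        Real.rpow_one]
    rw [h3]
    linarith
  have q6 : (W / (N / (Y * W))) ^ e0 ≤ (2 : ℝ) ^ ((2 * C + g) * n * e0) := by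
    have e1 : W / (N / (Y * W)) = W ^ 2 * (Y / N) := by field_simp
    have e2 : Y / N ≤ (2 : ℝ) ^ (g * n) := by
      rw [div_le_iff₀ hN]
      have e3 : (2 : ℝ) ^ (g * n) * δ = 1 := by
        rw [hδ, ← Real.rpow_add two_pos, add_neg_cancel, Real.rpow_zero]
      calc Y = (2 : ℝ) ^ (g * n) * (δ * Y) := by rw [← mul_assoc, e3, one_mul]
        _ ≤ (2 : ℝ) ^ (g * n) * N := mul_le_mul_of_nonneg_left hNY.le (by positivity)
    have e4 : W ^ 2 * (2 : ℝ) ^ (g * n) = (2 : ℝ) ^ ((2 * C + g) * n) := by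
      rw [hW, ← Real.rpow_natCast, ← Real.rpow_mul (by norm_num), ← Real.rpow_add two_pos]
      congr 1
      push_cast
      ring
    rw [Real.rpow_mul (by norm_num)]
    apply Real.rpow_le_rpow (by positivity) _ he0p.le
    rw [e1, ← e4]
    exact mul_le_mul_of_nonneg_left e2 (by positivity)
  have q7 : (1 / e0) ^ (B - B / E + 1) = (2 : ℝ) ^ ((j : ℝ) * h1) := by
    have e1 : 1 / e0 = (2 : ℝ) ^ (j : ℝ) := by
      rw [Real.rpow_natCast, div_eq_iff he0p.ne', mul_comm, he0j]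
    rw [e1, ← Real.rpow_natCast, ← Real.rpow_mul (by norm_num), hh1]
    push_cast
    rfl
  have q8 : ((p : ℝ) / ((p ^ L : ℕ) : ℝ)) ^ (h1 * (1 - e0)) ≤
      (2 : ℝ) ^ (-(K * ((L : ℝ) - 1) * (h1 * (1 - e0)))) := by
    have e1 : (p : ℝ) / ((p ^ L : ℕ) : ℝ) = ((p : ℝ) ^ ((L : ℝ) - 1))⁻¹ := by
      have e2 : (p : ℝ) ^ ((L : ℝ) - 1) = (p : ℝ) ^ L / p := by
        rw [Real.rpow_sub (by linarith), Real.rpow_natCast, Real.rpow_one]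
      rw [e2]
      push_cast
      rw [inv_div]
    have hL1r : (1 : ℝ) ≤ L := by exact_mod_cast (show 1 ≤ L by omega)
    have e3 : (2 : ℝ) ^ (K * ((L : ℝ) - 1)) ≤ (p : ℝ) ^ ((L : ℝ) - 1) := by
      rw [Real.rpow_mul (by norm_num)]
      exact Real.rpow_le_rpow (by positivity) hKpr (by linarith)
    rw [e1]
    calc (((p : ℝ) ^ ((L : ℝ) - 1))⁻¹) ^ (h1 * (1 - e0))
        ≤ (((2 : ℝ) ^ (K * ((L : ℝ) - 1)))⁻¹) ^ (h1 * (1 - e0)) := by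
          apply Real.rpow_le_rpow (by positivity) _ (mul_nonneg hh1c (by linarith))
          exact inv_anti₀ (by positivity) e3
      _ = (2 : ℝ) ^ (-(K * ((L : ℝ) - 1) * (h1 * (1 - e0)))) := by
          rw [← Real.rpow_neg (by norm_num), ← Real.rpow_mul (by norm_num)]
          congr 1
          ring
  have q9 : (2 : ℝ) ^ ((1 - ε) * n) + 1 ≤ (2 : ℝ) ^ (1 + (1 - ε₁) * n) := by
    have e1 : (2 : ℝ) ^ ((1 - ε) * n) ≤ (2 : ℝ) ^ ((1 - ε₁) * n) := by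
      apply Real.rpow_le_rpow_of_exponent_le one_le_two
      exact mul_le_mul_of_nonneg_right (by linarith) hnr0.le
    have e2 : (1 : ℝ) ≤ (2 : ℝ) ^ ((1 - ε₁) * n) := by
      apply Real.one_le_rpow one_le_two
      exact mul_nonneg (by linarith) hnr0.le
    rw [Real.rpow_add two_pos, Real.rpow_one]
    linarith
  have hR : 36 * ((p : ℝ) ^ B) ^ 2 * ((NO (ρ * u) K L k : ℝ) + 1) ^ 3 *
      (2 ^ (2 * B + 1) * ((p : ℝ) + 1) ^ (2 * (B : ℝ) * e0) * (W / (N / (Y * W))) ^ e0 *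
        (1 / e0) ^ (B - B / E + 1) *
        ((p : ℝ) / ((p ^ L : ℕ) : ℝ)) ^ (h1 * (1 - e0))) * ((2 : ℝ) ^ ((1 - ε) * n) + 1) ≤
      (2 : ℝ) ^ (6 + 2 * (B : ℝ) * (K + 1) + ε₁ / 4 * n + ((2 * (B : ℝ) + 1) +
        (K + 2) * (2 * (B : ℝ) * e0) + (2 * C + g) * n * e0 + (j : ℝ) * h1 +
        -(K * ((L : ℝ) - 1) * (h1 * (1 - e0)))) + (1 + (1 - ε₁) * n)) := by
    rw [q4, q7]
    calc 36 * ((p : ℝ) ^ B) ^ 2 * ((NO (ρ * u) K L k : ℝ) + 1) ^ 3 *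
          ((2 : ℝ) ^ (2 * (B : ℝ) + 1) * ((p : ℝ) + 1) ^ (2 * (B : ℝ) * e0) *
            (W / (N / (Y * W))) ^ e0 * (2 : ℝ) ^ ((j : ℝ) * h1) *
            ((p : ℝ) / ((p ^ L : ℕ) : ℝ)) ^ (h1 * (1 - e0))) * ((2 : ℝ) ^ ((1 - ε) * n) + 1)
        ≤ (2 : ℝ) ^ (6 : ℝ) * (2 : ℝ) ^ (2 * (B : ℝ) * (K + 1)) * (2 : ℝ) ^ (ε₁ / 4 * n) *
          ((2 : ℝ) ^ (2 * (B : ℝ) + 1) * (2 : ℝ) ^ ((K + 2) * (2 * (B : ℝ) * e0)) *
            (2 : ℝ) ^ ((2 * C + g) * n * e0) * (2 : ℝ) ^ ((j : ℝ) * h1) *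
            (2 : ℝ) ^ (-(K * ((L : ℝ) - 1) * (h1 * (1 - e0))))) *
            (2 : ℝ) ^ (1 + (1 - ε₁) * n) := by gcongr
      _ = _ := by
        rw [← Real.rpow_add two_pos, ← Real.rpow_add two_pos, ← Real.rpow_add two_pos,
          ← Real.rpow_add two_pos, ← Real.rpow_add two_pos, ← Real.rpow_add two_pos,
          ← Real.rpow_add two_pos, ← Real.rpow_add two_pos]
  have hfin := h.trans hR
  have hδ2 : δ ^ 2 = (2 : ℝ) ^ (-(2 * (g * n))) := by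
    rw [hδ, ← Real.rpow_natCast, ← Real.rpow_mul (by norm_num)]
    congr 1
    push_cast
    ring
  rw [hδ2, Real.rpow_le_rpow_left_iff one_lt_two] at hfin
  linarith

end Pool.Agent.H55.QT
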