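import Pool.Agent.H55.QP.Asm
import Pool.Agent.H55.QT.PARML
import Pool.Agent.H55.QT.FINT
import Pool.Agent.H55.QT.PADT
import Pool.Agent.H55.QT.LIMT

/-! # Quantum relaxations of k-SAT, memories and energies chosen after the formula, errors: the
theorem (MP_0f8dca_lc, helper55) -/

set_option autoImplicit false

namespace Pool.Agent.H55.QT

/-- the large width case -/
theorem statementTW : StatementTW := pf_FINT QP.corep Pool.Agent.H91.QO.goo2 pf_PARML

/-- width 3 -/
theorem fin3 : S_FIN3 := fun ε hε => by
  obtain ⟨c, hc, K, γ, hγ, n₀, h⟩ := QP.fin3 ε hε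
  refine ⟨c, hc, K, γ, hγ, n₀, fun n hn => ?_⟩
  obtain ⟨Y, m, phi, hY, h1, h2⟩ := h n hn
  refine ⟨Y, m, phi, hY, h1, fun M P hP => ?_⟩
  have h3 := h2 M P hP
  rw [one_mul]
  exact h3

/-- Quantum relaxations of k-SAT, memories and energies chosen after the formula, errors -/
theorem statementT : StatementT := pf_LIM pf_PADT statementTW fin3

end Pool.Agent.H55.QT
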