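import Pool.Agent.H68.QT.Targets
import Pool.Agent.H70.QC.INC

/-!
# The machines of the quantum classical hierarchy are towers
-/

set_option autoImplicit false

namespace Pool.Agent.H55.QT

open Pool.Agent.H6.NB Pool.Agent.H70.OQ Pool.Agent.H68.QC Pool.Agent.H68.QT
open Pool.Agent.H70.QC (ngt qry qry_prob qry_short ngt_state state_nrm)

theorem ngt_prob (Q : QAlg) (O : List Bool → Bool) : (ngt Q).prob O = 1 - Q.prob O := by
  have h1 : (ngt Q).prob O = ∑ i ∈ Q.accᶜ, ‖Q.state O Q.T i‖ ^ 2 := by
    change ∑ i ∈ Q.accᶜ, ‖(ngt Q).state O Q.T i‖ ^ 2 = _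
    rw [ngt_state]
  have h2 := Finset.sum_compl_add_sum Q.acc fun i => ‖Q.state O Q.T i‖ ^ 2
  rw [state_nrm] at h2
  rw [h1]
  unfold QAlg.prob
  linarith

theorem ngt_short (Q : QAlg) (m : ℕ) (h : Q.Short m) : (ngt Q).Short m := h

/-- `Q` or its negation. -/
noncomputable def sgn (s : Bool) (Q : QAlg) : QAlg := if s then Q else ngt Q

theorem sgn_short (s : Bool) (Q : QAlg) (m : ℕ) (h : Q.Short m) : (sgn s Q).Short m := by
  cases s
  · exact h
  · exact h

theorem sgn_T (s : Bool) (Q : QAlg) : (sgn s Q).T = Q.T := by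
  cases s
  · rfl
  · rfl

/-- The tower with the first quantifier of kind `b` and the sign `s`. -/
noncomputable def tw : (j : ℕ) → Bool → Bool → (List (List Bool) → QAlg) → Tow j
  | 0, _, s, Q => sgn s (Q [])
  | j + 1, b, s, Q => (sgn (s == b) (qry [true]), fun _ v => tw j (!b) b fun ws => Q (v :: ws))

theorem val0 (m : ℕ) (s : Bool) (Q : List (List Bool) → QAlg) (O : List Bool → Bool) :
    (2 / 3 ≤ (Q []).prob O → TVal m 0 (tw 0 true s Q) O s) ∧
      ((Q []).prob O ≤ 1 / 3 → TVal m 0 (tw 0 true s Q) O (!s)) := by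
  cases s
  · constructor
    · intro h
      change (ngt (Q [])).prob O ≤ 1 / 3
      rw [ngt_prob]
      linarith
    · intro h
      change 2 / 3 ≤ (ngt (Q [])).prob O
      rw [ngt_prob]
      linarith
  · exact ⟨fun h => h, fun h => h⟩

/-- The answers of the algorithm at the top. -/
theorem top (m j : ℕ) (s c e : Bool) (sub : List Bool → List Bool → Tow j)
    (O : List Bool → Bool)
    (h : if c then ∃ v : List Bool, v.length ≤ m ∧ TVal m j (sub [] v) O true
      else ∀ v : List Bool, v.length ≤ m → TVal m j (sub [] v) O false) (he : e = (s == c)) :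
    TVal m (j + 1) (sgn s (qry [true]), sub) O e := by
  intro g _ h1 h2
  have hg : g [true] = c := by
    cases c
    · exact h2 [] (by simpa using h)
    · exact h1 [] (by simpa using h)
  have hq : (qry [true]).prob g = if c then 1 else 0 := by
    rw [qry_prob, hg]
  subst he
  cases s <;> cases c
  · change 2 / 3 ≤ (ngt (qry [true])).prob g
    rw [ngt_prob, hq]
    norm_num
  · change (ngt (qry [true])).prob g ≤ 1 / 3
    rw [ngt_prob, hq]
    norm_num
  · change (qry [true]).prob g ≤ 1 / 3
    rw [hq]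
    norm_num
  · change 2 / 3 ≤ (qry [true]).prob g
    rw [hq]
    norm_num

theorem val (m : ℕ) (O : List Bool → Bool) : ∀ (j : ℕ) (b s : Bool)
    (Q : List (List Bool) → QAlg),
    (Alt (fun w => w.length ≤ m) b j (fun ws => 2 / 3 ≤ (Q ws).prob O) →
      TVal m j (tw j b s Q) O s) ∧
    (Alt (fun w => w.length ≤ m) (!b) j (fun ws => (Q ws).prob O ≤ 1 / 3) →
      TVal m j (tw j b s Q) O (!s)) := by
  intro j
  induction j with
  | zero =>
    intro b s Q
    have h := val0 m s Q O
    cases b
    · exact h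
    · exact h
  | succ j ih =>
    intro b s Q
    constructor
    · intro h
      refine top m j (s == b) b s _ O ?_ ?_
      · cases b
        · exact fun v hv => (ih true false fun ws => Q (v :: ws)).1 (h v hv)
        · obtain ⟨v, hv, hv'⟩ := h
          exact ⟨v, hv, (ih false true fun ws => Q (v :: ws)).1 hv'⟩
      · cases s <;> cases b <;> rfl
    · intro h
      refine top m j (s == b) (!b) (!s) _ O ?_ ?_
      · cases b
        · obtain ⟨v, hv, hv'⟩ := h
          exact ⟨v, hv, (ih true false fun ws => Q (v :: ws)).2 hv'⟩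
        · exact fun v hv => (ih false true fun ws => Q (v :: ws)).2 (h v hv)
      · cases s <;> cases b <;> rfl

theorem tsm (m : ℕ) (T : ℝ) (hT : 1 ≤ T) : ∀ (j : ℕ) (b s : Bool)
    (Q : List (List Bool) → QAlg),
    (∀ ws, ws.length = j → (∀ w ∈ ws, w.length ≤ m) → (Q ws).Short m ∧ ((Q ws).T : ℝ) ≤ T) →
    TSm m T j (tw j b s Q) := by
  intro j
  induction j with
  | zero =>
    intro b s Q h
    have h0 := h [] rfl (by simp)
    refine ⟨sgn_short s _ m h0.1, ?_⟩
    change ((sgn s (Q [])).T : ℝ) ≤ T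
    rw [sgn_T]
    exact h0.2
  | succ j ih =>
    intro b s Q h
    refine ⟨sgn_short _ _ _ (qry_short _ _ (by simp)), ?_, ?_⟩
    · rw [sgn_T]
      have : (qry [true]).T = 1 := rfl
      rw [this]
      simpa using hT
    · intro w v _ hv
      refine ih (!b) b (fun ws => Q (v :: ws)) fun ws hw hws => h (v :: ws) (by simp [hw]) ?_
      intro u hu
      rcases List.mem_cons.1 hu with rfl | hu
      · exact hv
      · exact hws u hu

theorem pf_QIT : T_QIT := by
  intro j U
  have hsm : ∀ x : List Bool, TSm (x.length ^ U.c + U.c)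
      ((U.C + 1 : ℕ) * 2 ^ ((1 / 2 - min U.ε (1 / 2)) * x.length)) j
      (tw j true true (U.alg x)) := by
    intro x
    have h1 : (1 : ℝ) ≤ 2 ^ ((1 / 2 - min U.ε (1 / 2)) * x.length) := by
      refine Real.one_le_rpow (by norm_num) (mul_nonneg ?_ (Nat.cast_nonneg _))
      have := min_le_right U.ε (1 / 2)
      linarith
    have h2 : (2 : ℝ) ^ ((1 / 2 - U.ε) * x.length) ≤
        2 ^ ((1 / 2 - min U.ε (1 / 2)) * x.length) := by
      refine Real.rpow_le_rpow_of_exponent_le (by norm_num)
        (mul_le_mul_of_nonneg_right ?_ (Nat.cast_nonneg _))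
      have := min_le_left U.ε (1 / 2)
      linarith
    have h0 : (0 : ℝ) ≤ U.C := Nat.cast_nonneg _
    refine tsm _ _ ?_ j true true (U.alg x) fun ws hw hws => ⟨U.short x ws hw hws, ?_⟩
    · push_cast
      nlinarith
    · refine le_trans (U.few x ws hw hws) ?_
      push_cast
      nlinarith [mul_le_mul_of_nonneg_left h2 h0]
  refine ⟨⟨U.c, U.C + 1, min U.ε (1 / 2), lt_min U.ε_pos (by norm_num),
    fun x => tw j true true (U.alg x), hsm⟩, fun O x => ?_⟩
  exact ⟨(val _ O j true true (U.alg x)).1, (val _ O j true true (U.alg x)).2⟩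

end Pool.Agent.H55.QT
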